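import Mathlib
import Pool.Agent.Helper669.KDefs

set_option autoImplicit false

/-!
# Coherent sequences of countable families of clubs, threads and full sequences, in the language
of forcing

`K` is (the set of ordinals below) a regular cardinal. A name of a subset of `K` is a map
`A : K → Set P`, and a name of a sequence of nonempty countable families of subsets of `K`,
indexed by `K`, is a map `X : K → ℕ → K → Set P`: the family at `β` is `{X β n : n}`.
-/

namespace Pool.Agent.W877.Full

open Cardinal Pool.Agent.Helper669.Forcing Pool.Agent.Helper669.K

section

variable {K P : Type} [LinearOrder K] [Preorder P]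

/-- `α` is a limit point of the named set `A`: `α > 0` and `α = sup (A ∩ α)`. -/
def FAcc (A : K → Set P) (α : K) : Set P :=
  fand (fground (∃ ξ, ξ < α)) (fall fun ξ : K => fall fun _ : ξ < α =>
    fex fun η : K => fand (fground (ξ < η ∧ η < α)) (meets (A η)))

/-- The named set `A` is a club subset of `β`. -/
def FClubIn (A : K → Set P) (β : K) : Set P :=
  fand (fall fun η : K => fimp (meets (A η)) (fground (η < β)))
    (fand
      (fall fun ξ : K => fall fun _ : ξ < β =>
        fex fun η : K => fand (fground (ξ ≤ η)) (meets (A η)))
      (fall fun α : K => fall fun _ : α < β => fimp (FAcc A α) (meets (A α))))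

/-- The named set `A` is a club subset of `K`. -/
def FClub (A : K → Set P) : Set P :=
  fand (fall fun ξ : K => fex fun η : K => fand (fground (ξ ≤ η)) (meets (A η)))
    (fall fun α : K => fimp (FAcc A α) (meets (A α)))

/-- The named sets `A` and `B` have the same elements below `α`. -/
def FSameBelow (A B : K → Set P) (α : K) : Set P :=
  fall fun η : K => fall fun _ : η < α =>
    fand (fimp (meets (A η)) (meets (B η))) (fimp (meets (B η)) (meets (A η)))

/-- `A ∩ α` is one of the members `X α m` (which are subsets of `α`) of the family at `α`. -/
def FMemAt (A : K → Set P) (X : K → ℕ → K → Set P) (α : K) : Set P :=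
  fex fun m : ℕ => FSameBelow A (X α m) α

/-- `X` is a coherent sequence: every `X β n` is a club subset of `β`, and
`X β n ∩ α` belongs to the family at `α` for every limit point `α < β` of `X β n`. -/
def FCoherent (X : K → ℕ → K → Set P) : Set P :=
  fand (fall fun β : K => fall fun n : ℕ => FClubIn (X β n) β)
    (fall fun β : K => fall fun n : ℕ => fall fun α : K => fall fun _ : α < β =>
      fimp (FAcc (X β n) α) (FMemAt (X β n) X α))

/-- `D` is a thread through `X`: a club `D` such that `D ∩ α` belongs to the family at `α` for
every limit point `α` of `D`. -/
def FThread (X : K → ℕ → K → Set P) (D : K → Set P) : Set P :=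
  fand (FClub D) (fall fun α : K => fimp (FAcc D α) (FMemAt D X α))

/-- `X` is a `□(K, < ω₁)` sequence: it is coherent and has no thread. -/
def FSquare (X : K → ℕ → K → Set P) : Set P :=
  fand (FCoherent X) (fall fun D : K → Set P => fnot (FThread X D))

/-- `α` belongs to the set `A_X`: there is a club `D` such that for every `β` in `D`,
`α < β` is a limit point of some member of the family at `β`. -/
def FInA (X : K → ℕ → K → Set P) (α : K) : Set P :=
  fex fun D : K → Set P => fand (FClub D)
    (fall fun β : K => fimp (meets (D β))
      (fex fun n : ℕ => fand (fground (α < β)) (FAcc (X β n) α)))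

/-- `X` is full: the set `A_X` is unbounded. -/
def FFull (X : K → ℕ → K → Set P) : Set P :=
  fall fun ξ : K => fex fun α : K => fand (fground (ξ ≤ α)) (FInA X α)

/-- The named family `U` of subsets of `K` is closed under diagonal intersections. -/
def IsNormal (U : (K → Set P) → Set P) : Set P :=
  fall fun X : K → K → Set P =>
    fimp (fall fun ζ : K => meets (U (X ζ)))
      (meets (U fun β : K => fall fun ζ : K => fall fun _ : ζ < β => meets (X ζ β)))

end

/-- `κ` is an uncountable cardinal which carries a normal measure (a `κ`-complete ultrafilter
containing no singleton and closed under diagonal intersections) in every generic extension by a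
`κ`-directed closed forcing notion: the measurability of `κ` is indestructible. -/
def IndestructiblyNormal (κ : Cardinal.{0}) : Prop :=
  ℵ₀ < κ ∧ ∀ (Q : Type) [Preorder Q], DirClosed κ Q →
    ∀ q : Q, q ∈ fex fun U : (κ.ord.ToType → Set Q) → Set Q => fand (IsMeasure κ U) (IsNormal U)

end Pool.Agent.W877.Full
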