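import Mathlib
import Pool.Agent.Helper669.KMain
import Pool.Agent.Helper669.KPowA
import Pool.Agent.W877.Full.Defs

set_option autoImplicit false

/-!
# The forcing notion adding a coherent sequence of countable families, and threads through it
-/

namespace Pool.Agent.W877.Full

open Cardinal Set Pool.Agent.Helper669.Forcing Pool.Agent.Helper669.K

section

variable {K : Type} [LinearOrder K]

/-- `α` is a limit point of `A` -/
def Acc (A : Set K) (α : K) : Prop := (∃ ξ, ξ < α) ∧ ∀ ξ < α, ∃ η ∈ A, ξ < η ∧ η < α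

/-- `A` is club in `β` -/
def ClubIn (A : Set K) (β : K) : Prop :=
  (∀ η ∈ A, η < β) ∧ (∀ ξ < β, ∃ η ∈ A, ξ ≤ η) ∧ ∀ α < β, Acc A α → α ∈ A

theorem acc_congr {A B : Set K} {α : K} (h : ∀ η < α, η ∈ A ↔ η ∈ B) (hA : Acc A α) :
    Acc B α := by
  refine ⟨hA.1, fun ξ hξ => ?_⟩
  obtain ⟨η, hη, h1, h2⟩ := hA.2 ξ hξ
  exact ⟨η, (h η h2).1 hη, h1, h2⟩

variable (K) in
/-- conditions: approximations of length `len` -/
structure SC where
  len : K
  x : K → ℕ → Set K
  club : ∀ β ≤ len, ∀ n, ClubIn (x β n) β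
  coh : ∀ β ≤ len, ∀ n, ∀ α < β, Acc (x β n) α → ∃ m, ∀ η < α, (η ∈ x β n ↔ η ∈ x α m)

instance : Preorder (SC K) where
  le s' s := s.len ≤ s'.len ∧ ∀ β ≤ s.len, s'.x β = s.x β
  le_refl s := ⟨le_rfl, fun _ _ => rfl⟩
  le_trans a b c h h' := ⟨h'.1.trans h.1, fun β hβ =>
    (h.2 β (hβ.trans h'.1)).trans (h'.2 β hβ)⟩

theorem SC.le_def {s' s : SC K} : s' ≤ s ↔ s.len ≤ s'.len ∧ ∀ β ≤ s.len, s'.x β = s.x β := Iff.rfl

variable (K) in
/-- conditions with approximations of threads, indexed by `J` -/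
structure QC (J : Type) where
  s : SC K
  t : J → Set K
  sub : ∀ j, ∀ η ∈ t j, η ≤ s.len
  top : ∀ j, s.len ∈ t j
  closed : ∀ j α, Acc (t j) α → α ∈ t j
  coh : ∀ j α, Acc (t j) α → ∃ m, ∀ η < α, (η ∈ t j ↔ η ∈ s.x α m)

variable {J : Type}

instance : Preorder (QC K J) where
  le q' q := q'.s ≤ q.s ∧ ∀ j, ∀ η ≤ q.s.len, (η ∈ q'.t j ↔ η ∈ q.t j)
  le_refl s := ⟨le_rfl, fun _ _ _ => Iff.rfl⟩
  le_trans a b c h h' := ⟨h.1.trans h'.1, fun j η hη =>
    (h.2 j η (hη.trans h'.1.1)).trans (h'.2 j η hη)⟩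

theorem QC.le_def {q' q : QC K J} :
    q' ≤ q ↔ q'.s ≤ q.s ∧ ∀ j, ∀ η ≤ q.s.len, (η ∈ q'.t j ↔ η ∈ q.t j) := Iff.rfl

/-- the `j`-th thread -/
def QC.proj (j : J) (q : QC K J) : QC K Unit where
  s := q.s
  t := fun _ => q.t j
  sub := fun _ => q.sub j
  top := fun _ => q.top j
  closed := fun _ => q.closed j
  coh := fun _ => q.coh j

theorem QC.proj_le {j : J} {q' q : QC K J} (h : q' ≤ q) : q'.proj j ≤ q.proj j :=
  ⟨h.1, fun _ η hη => h.2 j η hη⟩

theorem QC.proj_s {j : J} {q : QC K J} : (q.proj j).s = q.s := rfl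

variable [SuccOrder K] [NoMaxOrder K]

open Classical in
/-- one more step -/
noncomputable def SC.up (s : SC K) : SC K where
  len := Order.succ s.len
  x := fun β n => if β ≤ s.len then s.x β n else {s.len}
  club := by
    intro β hβ n
    by_cases h : β ≤ s.len
    · simp only [h, if_true]
      exact s.club β h n
    · simp only [h, if_false]
      have h1 : β = Order.succ s.len := le_antisymm hβ (Order.succ_le_of_lt (not_le.1 h))
      subst h1
      refine ⟨?_, ?_, ?_⟩
      · intro η hη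
        rw [hη]
        exact Order.lt_succ _
      · intro ξ hξ
        exact ⟨s.len, rfl, Order.lt_succ_iff.1 hξ⟩
      · intro α _ hacc
        obtain ⟨ξ, hξ⟩ := hacc.1
        obtain ⟨η, hη, _, h2⟩ := hacc.2 ξ hξ
        obtain ⟨η', hη', h3, _⟩ := hacc.2 η h2
        rw [mem_singleton_iff] at hη hη'
        rw [hη, hη'] at h3
        exact absurd h3 (lt_irrefl _)
  coh := by
    intro β hβ n α hα hacc
    by_cases h : β ≤ s.len
    · have h' : α ≤ s.len := hα.le.trans h
      simp only [h, h', if_true] at hacc ⊢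
      exact s.coh β h n α hα hacc
    · simp only [h, if_false] at hacc
      obtain ⟨ξ, hξ⟩ := hacc.1
      obtain ⟨η, hη, _, h2⟩ := hacc.2 ξ hξ
      obtain ⟨η', hη', h3, _⟩ := hacc.2 η h2
      rw [mem_singleton_iff] at hη hη'
      rw [hη, hη'] at h3
      exact absurd h3 (lt_irrefl _)

theorem SC.up_le (s : SC K) : s.up ≤ s :=
  ⟨(Order.lt_succ _).le, fun β hβ => by
    funext n
    simp only [SC.up, hβ, if_true]⟩

theorem SC.len_up (s : SC K) : s.up.len = Order.succ s.len := rfl

/-- put together conditions over a common extension `s'` of their first coordinates -/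
noncomputable def comb (s' : SC K) (q : J → QC K Unit) (h : ∀ j, s' ≤ (q j).s) : QC K J where
  s := s'.up
  t := fun j => insert (Order.succ s'.len) ((q j).t ())
  sub := by
    intro j η hη
    rcases hη with rfl | hη
    · exact le_rfl
    · exact ((q j).sub () η hη).trans ((h j).1.trans (Order.lt_succ _).le)
  top := fun j => Or.inl rfl
  closed := by
    intro j α hacc
    right
    have hle : α ≤ Order.succ s'.len := by
      by_contra hcon
      obtain ⟨η, hη, h1, _⟩ := hacc.2 _ (not_le.1 hcon)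
      rcases hη with rfl | hη
      · exact lt_irrefl _ h1
      · exact absurd (((q j).sub () η hη).trans ((h j).1.trans (Order.lt_succ _).le))
          (not_le.2 h1)
    refine (q j).closed () α (acc_congr (fun η hη => ?_) hacc)
    simp only [mem_insert_iff, (hη.trans_le hle).ne, false_or]
  coh := by
    intro j α hacc
    have hle : α ≤ Order.succ s'.len := by
      by_contra hcon
      obtain ⟨η, hη, h1, _⟩ := hacc.2 _ (not_le.1 hcon)
      rcases hη with rfl | hη
      · exact lt_irrefl _ h1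
      · exact absurd (((q j).sub () η hη).trans ((h j).1.trans (Order.lt_succ _).le))
          (not_le.2 h1)
    have hacc' : Acc ((q j).t ()) α := acc_congr (fun η hη => by
      simp only [mem_insert_iff, (hη.trans_le hle).ne, false_or]) hacc
    have hα : α ≤ (q j).s.len := (q j).sub () α ((q j).closed () α hacc')
    obtain ⟨m, hm⟩ := (q j).coh () α hacc'
    refine ⟨m, fun η hη => ?_⟩
    have h1 : s'.up.x α = (q j).s.x α := by
      rw [(SC.le_def.1 (SC.up_le s')).2 α (hα.trans (h j).1)]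
      exact (h j).2 α hα
    rw [h1]
    simp only [mem_insert_iff, (hη.trans_le hle).ne, false_or]
    exact hm η hη

theorem comb_s (s' : SC K) (q : J → QC K Unit) (h : ∀ j, s' ≤ (q j).s) :
    (comb s' q h).s ≤ s' := SC.up_le s'

theorem comb_proj (s' : SC K) (q : J → QC K Unit) (h : ∀ j, s' ≤ (q j).s) (j : J) :
    (comb s' q h).proj j ≤ q j := by
  refine ⟨(SC.up_le s').trans (h j), fun i η hη => ?_⟩
  show η ∈ insert (Order.succ s'.len) ((q j).t ()) ↔ η ∈ (q j).t i
  have h1 : η ≠ Order.succ s'.len := (lt_of_le_of_lt (hη.trans (h j).1) (Order.lt_succ _)).ne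
  simp only [mem_insert_iff, h1, false_or]

/-- a condition is below another one if all projections are -/
theorem le_of_proj [Nonempty J] {q' q : QC K J} (h : ∀ j, q'.proj j ≤ q.proj j) : q' ≤ q :=
  ⟨(h (Classical.arbitrary J)).1, fun j η hη => (h j).2 () η hη⟩

theorem comb_le [Nonempty J] {r : QC K J} (s' : SC K) (q : J → QC K Unit) (h : ∀ j, s' ≤ (q j).s)
    (h' : ∀ j, q j ≤ r.proj j) : comb s' q h ≤ r :=
  le_of_proj fun j => (comb_proj s' q h j).trans (h' j)

/-- extension of the first coordinate -/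
noncomputable def lift (s' : SC K) (q : QC K Unit) (h : s' ≤ q.s) : QC K Unit :=
  comb s' (fun _ => q) (fun _ => h)

theorem lift_le (s' : SC K) (q : QC K Unit) (h : s' ≤ q.s) : lift s' q h ≤ q :=
  comb_proj s' (fun _ : Unit => q) (fun _ => h) ()

theorem lift_s (s' : SC K) (q : QC K Unit) (h : s' ≤ q.s) : (lift s' q h).s ≤ s' :=
  SC.up_le s'

theorem lift_len (s' : SC K) (q : QC K Unit) (h : s' ≤ q.s) :
    (lift s' q h).s.len = Order.succ s'.len := rfl

/-- a trivial thread -/
noncomputable def ofS (s : SC K) : QC K Unit where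
  s := s
  t := fun _ => {s.len}
  sub := by
    intro _ η hη
    rw [hη]
  top := fun _ => rfl
  closed := by
    intro _ α hacc
    obtain ⟨ξ, hξ⟩ := hacc.1
    obtain ⟨η, hη, _, h2⟩ := hacc.2 ξ hξ
    obtain ⟨η', hη', h3, _⟩ := hacc.2 η h2
    rw [mem_singleton_iff] at hη hη'
    rw [hη, hη'] at h3
    exact absurd h3 (lt_irrefl _)
  coh := by
    intro _ α hacc
    obtain ⟨ξ, hξ⟩ := hacc.1
    obtain ⟨η, hη, _, h2⟩ := hacc.2 ξ hξ
    obtain ⟨η', hη', h3, _⟩ := hacc.2 η h2
    rw [mem_singleton_iff] at hη hη'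
    rw [hη, hη'] at h3
    exact absurd h3 (lt_irrefl _)

end

end Pool.Agent.W877.Full
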