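import Mathlib
import Pool.Agent.W877.Full.Poset

set_option autoImplicit false

/-!
# Directed closure
-/

namespace Pool.Agent.W877.Full

open Cardinal Set Pool.Agent.Helper669.Forcing Pool.Agent.Helper669.K

theorem exists_bound {κ : Cardinal.{0}} (hκ : κ.IsRegular) {N : Type} (hN : #N < κ)
    (f : N → κ.ord.ToType) : ∃ b, ∀ i, f i < b := by
  by_contra hcon
  push Not at hcon
  have h1 : IsCofinal (Set.range f) := by
    intro β
    obtain ⟨x, hx⟩ := hcon β
    exact ⟨f x, ⟨x, rfl⟩, hx⟩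
  have h2 := Order.cof_le h1
  rw [Ordinal.cof_toType, hκ.cof_ord] at h2
  have h3 : #(Set.range f) ≤ #N := Cardinal.mk_range_le
  exact absurd (h2.trans h3) (not_le.2 hN)

section

variable {K : Type} [LinearOrder K] [WellFoundedLT K] {J : Type}

open Classical in
/-- the limit of a directed set of conditions without a longest one -/
noncomputable def limC (D : Set (QC K J)) (γ : K) (e : ℕ → J)
    (hdir : ∀ a ∈ D, ∀ b ∈ D, ∃ c ∈ D, c ≤ a ∧ c ≤ b)
    (hlt : ∀ q ∈ D, q.s.len < γ) (hub : ∀ ξ < γ, ∃ q ∈ D, ξ ≤ q.s.len)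
    (hne : ∃ ξ, ξ < γ) (hsucc : ∀ q ∈ D, ∃ r ∈ D, q.s.len < r.s.len) (he : ∀ j, ∃ n, e n = j) :
    QC K J := by
  have hD : ∀ q ∈ D, ∀ r ∈ D, ∀ β, β ≤ q.s.len → β ≤ r.s.len → q.s.x β = r.s.x β := by
    intro q hq r hr β hβ hβ'
    obtain ⟨c, _, h1, h2⟩ := hdir q hq r hr
    rw [← h1.1.2 β hβ, ← h2.1.2 β hβ']
  have hT : ∀ q ∈ D, ∀ j, ∀ η ≤ q.s.len, ((∃ r ∈ D, η ∈ r.t j) ↔ η ∈ q.t j) := by
    intro q hq j η hη
    constructor
    · rintro ⟨r, hr, h⟩
      obtain ⟨c, _, h1, h2⟩ := hdir q hq r hr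
      rw [← h1.2 j η hη, h2.2 j η (r.sub j η h)]
      exact h
    · intro h
      exact ⟨q, hq, h⟩
  let x : K → ℕ → Set K := fun β n =>
    if h : ∃ q ∈ D, β ≤ q.s.len then h.choose.s.x β n else {η | ∃ q ∈ D, η ∈ q.t (e n)}
  have hx : ∀ q ∈ D, ∀ β ≤ q.s.len, x β = q.s.x β := by
    intro q hq β hβ
    have h : ∃ q ∈ D, β ≤ q.s.len := ⟨q, hq, hβ⟩
    funext n
    simp only [x, dif_pos h]
    rw [hD _ h.choose_spec.1 q hq β h.choose_spec.2 hβ]
  have hxγ : ∀ n, x γ n = {η | ∃ q ∈ D, η ∈ q.t (e n)} := by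
    intro n
    have h : ¬ ∃ q ∈ D, γ ≤ q.s.len := by
      rintro ⟨q, hq, h⟩
      exact absurd (hlt q hq) (not_lt.2 h)
    simp only [x, dif_neg h]
  have hacc : ∀ j, ∀ α < γ, Acc {η | ∃ q ∈ D, η ∈ q.t j} α →
      (∃ q ∈ D, α ∈ q.t j) ∧ ∃ m, ∀ η < α, ((∃ q ∈ D, η ∈ q.t j) ↔ η ∈ x α m) := by
    intro j α hα h
    obtain ⟨q, hq, hle⟩ := hub α hα
    have h1 : Acc (q.t j) α := acc_congr (fun η hη => hT q hq j η (hη.le.trans hle)) h
    refine ⟨⟨q, hq, q.closed j α h1⟩, ?_⟩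
    obtain ⟨m, hm⟩ := q.coh j α h1
    refine ⟨m, fun η hη => ?_⟩
    rw [hT q hq j η (hη.le.trans hle), hx q hq α hle]
    exact hm η hη
  exact
  { s :=
    { len := γ
      x := x
      club := by
        intro β hβ n
        rcases hβ.lt_or_eq with h | h
        · obtain ⟨q, hq, hle⟩ := hub β h
          rw [hx q hq β hle]
          exact q.s.club β hle n
        · subst h
          rw [hxγ]
          refine ⟨?_, ?_, ?_⟩
          · rintro η ⟨q, hq, h⟩
            exact (q.sub _ η h).trans_lt (hlt q hq)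
          · intro ξ hξ
            obtain ⟨q, hq, hle⟩ := hub ξ hξ
            exact ⟨q.s.len, ⟨q, hq, q.top _⟩, hle⟩
          · intro α hα h
            exact (hacc _ α hα h).1
      coh := by
        intro β hβ n α hα h
        rcases hβ.lt_or_eq with h' | h'
        · obtain ⟨q, hq, hle⟩ := hub β h'
          rw [hx q hq β hle] at h ⊢
          rw [hx q hq α (hα.le.trans hle)]
          exact q.s.coh β hle n α hα h
        · subst h'
          rw [hxγ] at h ⊢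
          exact (hacc _ α hα h).2 }
    t := fun j => insert γ {η | ∃ q ∈ D, η ∈ q.t j}
    sub := by
      intro j η hη
      rcases hη with rfl | ⟨q, hq, h⟩
      · exact le_rfl
      · exact (q.sub _ η h).trans (hlt q hq).le
    top := fun j => Or.inl rfl
    closed := by
      intro j α h
      have hle : α ≤ γ := by
        by_contra hcon
        obtain ⟨η, hη, h1, _⟩ := h.2 γ (not_le.1 hcon)
        rcases hη with rfl | ⟨q, hq, h3⟩
        · exact lt_irrefl _ h1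
        · exact absurd ((q.sub _ η h3).trans (hlt q hq).le) (not_le.2 h1)
      rcases hle.lt_or_eq with h1 | h1
      · right
        exact (hacc j α h1 (acc_congr (fun η hη => by
          simp only [mem_insert_iff, (hη.trans_le hle).ne, false_or]) h)).1
      · left
        exact h1
    coh := by
      intro j α h
      have hle : α ≤ γ := by
        by_contra hcon
        obtain ⟨η, hη, h1, _⟩ := h.2 γ (not_le.1 hcon)
        rcases hη with rfl | ⟨q, hq, h3⟩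
        · exact lt_irrefl _ h1
        · exact absurd ((q.sub _ η h3).trans (hlt q hq).le) (not_le.2 h1)
      have h' : Acc {η | ∃ q ∈ D, η ∈ q.t j} α := acc_congr (fun η hη => by
          simp only [mem_insert_iff, (hη.trans_le hle).ne, false_or]) h
      rcases hle.lt_or_eq with h1 | h1
      · obtain ⟨m, hm⟩ := (hacc j α h1 h').2
        refine ⟨m, fun η hη => ?_⟩
        simp only [mem_insert_iff, (hη.trans_le hle).ne, false_or]
        exact hm η hη
      · subst h1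
        obtain ⟨n, hn⟩ := he j
        refine ⟨n, fun η hη => ?_⟩
        simp only [mem_insert_iff, hη.ne, false_or]
        rw [hxγ, hn] }

theorem limC_le (D : Set (QC K J)) (γ : K) (e : ℕ → J)
    (hdir : ∀ a ∈ D, ∀ b ∈ D, ∃ c ∈ D, c ≤ a ∧ c ≤ b)
    (hlt : ∀ q ∈ D, q.s.len < γ) (hub : ∀ ξ < γ, ∃ q ∈ D, ξ ≤ q.s.len)
    (hne : ∃ ξ, ξ < γ) (hsucc : ∀ q ∈ D, ∃ r ∈ D, q.s.len < r.s.len) (he : ∀ j, ∃ n, e n = j)
    (q : QC K J) (hq : q ∈ D) : limC D γ e hdir hlt hub hne hsucc he ≤ q := by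
  refine ⟨⟨(hlt q hq).le, fun β hβ => ?_⟩, fun j η hη => ?_⟩
  · have h : ∃ q ∈ D, β ≤ q.s.len := ⟨q, hq, hβ⟩
    funext n
    simp only [limC, dif_pos h]
    obtain ⟨c, _, h1, h2⟩ := hdir q hq _ h.choose_spec.1
    rw [← h1.1.2 β hβ, ← h2.1.2 β h.choose_spec.2]
  · show η ∈ insert γ {η | ∃ q ∈ D, η ∈ q.t j} ↔ η ∈ q.t j
    simp only [mem_insert_iff, (hη.trans_lt (hlt q hq)).ne, false_or, mem_ofPred_eq]
    constructor
    · rintro ⟨r, hr, h⟩
      obtain ⟨c, _, h1, h2⟩ := hdir q hq r hr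
      rw [← h1.2 j η hη, h2.2 j η (r.sub j η h)]
      exact h
    · intro h
      exact ⟨q, hq, h⟩

end

theorem dirClosed_QC {κ : Cardinal.{0}} (hκ : κ.IsRegular) {J : Type} (e : ℕ → J)
    (he : ∀ j, ∃ n, e n = j) : DirClosed κ (QC κ.ord.ToType J) := by
  intro D hD hne hdir
  by_cases hmax : ∃ q0 ∈ D, ∀ q ∈ D, q.s.len ≤ q0.s.len
  · obtain ⟨q0, hq0, h⟩ := hmax
    refine ⟨q0, fun q hq => ?_⟩
    obtain ⟨r, hr, h1, h2⟩ := hdir q hq q0 hq0
    have hlen : r.s.len = q0.s.len := le_antisymm (h r hr) h2.1.1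
    refine ⟨⟨h q hq, fun β hβ => ?_⟩, fun j η hη => ?_⟩
    · rw [← h1.1.2 β hβ, ← h2.1.2 β (hβ.trans (h q hq))]
    · rw [← h1.2 j η hη, ← h2.2 j η (hη.trans (h q hq))]
  · push Not at hmax
    obtain ⟨b, hb⟩ := exists_bound hκ hD (fun q => q.1.s.len)
    obtain ⟨γ, hγ, hmin⟩ := WellFounded.has_min (wellFounded_lt (α := κ.ord.ToType))
      {b | ∀ q ∈ D, q.s.len < b} ⟨b, fun q hq => hb ⟨q, hq⟩⟩
    have hub : ∀ ξ < γ, ∃ q ∈ D, ξ ≤ q.s.len := by
      intro ξ hξ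
      by_contra hcon
      push Not at hcon
      exact hmin ξ hcon hξ
    obtain ⟨q0, hq0⟩ := hne
    exact ⟨limC D γ e hdir hγ hub ⟨_, hγ q0 hq0⟩ hmax he, fun q hq =>
      limC_le D γ e hdir hγ hub ⟨_, hγ q0 hq0⟩ hmax he q hq⟩

end Pool.Agent.W877.Full
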