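import Mathlib
import Pool.Agent.W877.Full.Closed

set_option autoImplicit false

/-!
# The measure in the extension by one thread
-/

namespace Pool.Agent.W877.Full

open Cardinal Set Pool.Agent.Helper669.Forcing Pool.Agent.Helper669.K

section

variable {P : Type} [Preorder P]

theorem en_Reg_meets (N : Set P) : en_Reg (meets N) := fun _ hp => meets_of_dense' hp

theorem en_Reg_fground (h : Prop) : en_Reg (fground (P := P) h) := by
  intro p hp
  obtain ⟨_, _, hr⟩ := hp p le_rfl
  exact hr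

theorem en_Reg_fex {ι : Sort*} (φ : ι → Set P) : en_Reg (fex φ) :=
  en_Reg_fnot (down_fall fun _ => down_fnot _)

theorem fimp_mp {φ ψ : Set P} (hφ : Down φ) (hψ : en_Reg ψ) {p : P} (h : p ∈ fimp φ ψ)
    (h' : p ∈ φ) : p ∈ ψ := hψ p fun q hq => mem_fimp.1 h q hq (hφ p h' q hq)

theorem mem_fex_of {ι : Sort*} {φ : ι → Set P} (i : ι) {p : P} (h : ∀ q ≤ p, ∃ r ≤ q, r ∈ φ i) :
    p ∈ fex φ := mem_fex.2 fun q hq => by
  obtain ⟨r, hr, h'⟩ := h q hq
  exact ⟨r, hr, i, h'⟩

variable {K : Type} [LinearOrder K]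

theorem down_FAcc (A : K → Set P) (α : K) : Down (FAcc A α) :=
  down_fand (down_fground _) (down_fall fun _ => down_fall fun _ => down_fex _)

theorem reg_FAcc (A : K → Set P) (α : K) : en_Reg (FAcc A α) :=
  en_Reg_fand (en_Reg_fground _) (en_Reg_fall fun _ => en_Reg_fall fun _ => en_Reg_fex _)

theorem down_FSameBelow (A B : K → Set P) (α : K) : Down (FSameBelow A B α) :=
  down_fall fun _ => down_fall fun _ => down_fand (down_fimp _ _) (down_fimp _ _)

theorem down_FClubIn (A : K → Set P) (β : K) : Down (FClubIn A β) :=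
  down_fand (down_fall fun _ => down_fimp _ _)
    (down_fand (down_fall fun _ => down_fall fun _ => down_fex _)
      (down_fall fun _ => down_fall fun _ => down_fimp _ _))

theorem reg_FClubIn (A : K → Set P) (β : K) : en_Reg (FClubIn A β) :=
  en_Reg_fand (en_Reg_fall fun _ => en_Reg_fimp (down_meets _))
    (en_Reg_fand (en_Reg_fall fun _ => en_Reg_fall fun _ => en_Reg_fex _)
      (en_Reg_fall fun _ => en_Reg_fall fun _ => en_Reg_fimp (down_FAcc _ _)))

theorem down_FClub (A : K → Set P) : Down (FClub A) :=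
  down_fand (down_fall fun _ => down_fex _) (down_fall fun _ => down_fimp _ _)

theorem down_FCoherent (X : K → ℕ → K → Set P) : Down (FCoherent X) :=
  down_fand (down_fall fun _ => down_fall fun _ => down_FClubIn _ _)
    (down_fall fun _ => down_fall fun _ => down_fall fun _ => down_fall fun _ => down_fimp _ _)

theorem down_FThread (X : K → ℕ → K → Set P) (D : K → Set P) : Down (FThread X D) :=
  down_fand (down_FClub _) (down_fall fun _ => down_fimp _ _)

theorem down_FSquare (X : K → ℕ → K → Set P) : Down (FSquare X) :=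
  down_fand (down_FCoherent X) (down_fall fun _ => down_fnot _)

theorem down_FFull (X : K → ℕ → K → Set P) : Down (FFull X) :=
  down_fall fun _ => down_fex _

theorem FSameBelow.mp {A B : K → Set P} {α : K} {p : P} (h : p ∈ FSameBelow A B α) {η : K}
    (hη : η < α) (h' : p ∈ meets (A η)) : p ∈ meets (B η) :=
  fimp_mp (down_meets _) (en_Reg_meets _) (h η hη).1 h'

theorem FSameBelow.mpr {A B : K → Set P} {α : K} {p : P} (h : p ∈ FSameBelow A B α) {η : K}
    (hη : η < α) (h' : p ∈ meets (B η)) : p ∈ meets (A η) :=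
  fimp_mp (down_meets _) (en_Reg_meets _) (h η hη).2 h'

theorem FSameBelow.mp_not {A B : K → Set P} {α : K} {p : P} (h : p ∈ FSameBelow A B α) {η : K}
    (hη : η < α) (h' : p ∈ fnot (meets (A η))) : p ∈ fnot (meets (B η)) := by
  intro q hq hB
  exact h' q hq (FSameBelow.mpr (down_FSameBelow A B α p h q hq) hη hB)

theorem not_both {N : Set P} {p : P} (h : p ∈ meets N) (h' : p ∈ fnot (meets N)) : False :=
  h' p le_rfl h

/-- a name of an existential statement has names for a normal measure -/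
theorem exists_normal {Q : Type} [Preorder Q] {κ : Cardinal.{0}} {K : Type} [LinearOrder K]
    (h : ∀ q : Q, q ∈ fex fun U : (K → Set Q) → Set Q => fand (IsMeasure κ U) (IsNormal U)) :
    ∃ U : (K → Set Q) → Set Q, ∀ q : Q, q ∈ IsMeasure κ U ∧ q ∈ IsNormal U := by
  classical
  have hdown : ∀ U : (K → Set Q) → Set Q, Down (fand (IsMeasure κ U) (IsNormal U)) := fun U =>
    down_fand (en_down_IsMeasure U) (down_fall fun _ => down_fimp _ _)
  have hreg : ∀ U : (K → Set Q) → Set Q, en_Reg (fand (IsMeasure κ U) (IsNormal U)) := fun U =>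
    en_Reg_fand (en_Reg_IsMeasure U) (en_Reg_fall fun _ =>
      en_Reg_fimp (down_fall fun _ => down_meets _))
  have hloc' : ∀ (a : Q) (U V : (K → Set Q) → Set Q),
      (∀ X, en_Loc a (meets (U X)) (meets (V X))) →
      en_Loc a (fand (IsMeasure κ U) (IsNormal U)) (fand (IsMeasure κ V) (IsNormal V)) := by
    intro a U V h
    exact en_Loc_fand (en_Loc_IsMeasure U V h) (en_Loc_fall fun X => en_Loc_fimp
      (en_Loc_fall fun ζ => h (X ζ)) (h _))
  obtain ⟨A, hAD, hanti, hpred⟩ := en_antichain {q : Q | ∃ U : (K → Set Q) → Set Q,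
    q ∈ fand (IsMeasure κ U) (IsNormal U)} (fun q => by
      obtain ⟨r, hr, i, hi⟩ := mem_fex.1 (h q) q le_rfl
      exact ⟨r, hr, i, hi⟩)
  have hch : ∀ a : Q, ∃ V : (K → Set Q) → Set Q, a ∈ A →
      a ∈ fand (IsMeasure κ V) (IsNormal V) := by
    intro a
    by_cases ha : a ∈ A
    · obtain ⟨V, hV⟩ := hAD ha
      exact ⟨V, fun _ => hV⟩
    · exact ⟨fun _ => ∅, fun h => absurd h ha⟩
  choose V hV using hch
  refine ⟨fun X => {q : Q | ∃ a ∈ A, q ≤ a ∧ q ∈ meets (V a X)}, ?_⟩
  intro q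
  refine hreg _ q ?_
  intro q' _
  obtain ⟨a, haA, r, hrq, hra⟩ := hpred q'
  refine ⟨r, hrq, ?_⟩
  have hloc : ∀ X : K → Set Q,
      en_Loc a (meets {q : Q | ∃ a ∈ A, q ≤ a ∧ q ∈ meets (V a X)}) (meets (V a X)) := by
    intro X s hs
    constructor
    · intro h1 t ht
      obtain ⟨t', ht', u, hu, ht'u⟩ := h1 t ht
      obtain ⟨b, hbA, hub, hum⟩ := hu
      have hab : a = b := hanti a haA b hbA t' (ht'.trans (ht.trans hs)) (ht'u.trans hub)
      subst hab
      obtain ⟨t'', ht'', u', hu', h2⟩ := hum t' ht'u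
      exact ⟨t'', ht''.trans ht', u', hu', h2⟩
    · intro h1 t ht
      exact ⟨t, le_rfl, t, ⟨a, haA, ht.trans hs, down_meets _ s h1 t ht⟩, le_rfl⟩
  exact (hloc' a _ _ hloc r hra).2 (hdown (V a) a (hV a haA) r hra)

section

variable {Q : Type} [Preorder Q] {κ : Cardinal.{0}} {K : Type} {U : (K → Set Q) → Set Q}

theorem compl_mem (hU : ∀ q : Q, q ∈ IsMeasure κ U) {A : K → Set Q} {q : Q}
    (h : q ∈ fnot (meets (U A))) : q ∈ meets (U (nCompl A)) :=
  fimp_mp (down_fnot _) (en_Reg_meets _) ((hU q).2.1 A).2 h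

theorem co_small (hκ : ℵ₀ < κ) (hU : ∀ q : Q, q ∈ IsMeasure κ U) (B : Set K) (hB : #B < κ)
    (A : K → Set Q) (q : Q) (h : ∀ β, β ∉ B → ∀ q' ≤ q, ∃ r ≤ q', r ∈ meets (A β)) :
    q ∈ meets (U A) := by
  apply exists_point_meets
  intro r hr
  by_contra hcon
  push Not at hcon
  have h1 : r ∈ meets (U (nCompl A)) := compl_mem hU hcon
  obtain ⟨r', hr', β, hβ, h2⟩ := exists_point hκ.le hU (N := Unit)
    (by rw [Cardinal.mk_unit]; exact Cardinal.one_lt_aleph0.trans hκ) (fun _ => nCompl A) r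
    (fun _ => h1) B hB
  obtain ⟨r2, hr2, h3⟩ := exists_of_meets (down_fnot _) (h2 ())
  obtain ⟨r3, hr3, h4⟩ := h β hβ r2 (hr2.trans (hr'.trans hr))
  exact h3 r3 hr3 h4

end

end

section

variable {K : Type} [LinearOrder K] [SuccOrder K] [NoMaxOrder K]

/-- statements about the first coordinate -/
def Lf (φ : Set (SC K)) : Set (QC K Unit) := {q | q.s ∈ φ}

omit [SuccOrder K] [NoMaxOrder K] in
theorem down_Lf {φ : Set (SC K)} (h : Down φ) : Down (Lf φ) := fun _ hp _ hq => h _ hp _ hq.1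

theorem meets_Lf {φ : Set (SC K)} (h : Down φ) (hr : en_Reg φ) {q : QC K Unit}
    (hq : q ∈ meets (Lf φ)) : q.s ∈ φ := by
  apply hr
  intro s' hs'
  obtain ⟨r, hr', s1, hs1, hle⟩ := hq (lift s' q hs') (lift_le s' q hs')
  exact ⟨r.s, hr'.1.trans (lift_s s' q hs'), h _ hs1 _ hle.1⟩

theorem fnot_Lf {φ : Set (SC K)} (h : Down φ) {q : QC K Unit}
    (hq : q ∈ fnot (Lf φ)) : q.s ∈ fnot φ := by
  intro s' hs' hφ
  exact hq (lift s' q hs') (lift_le s' q hs') (h _ hφ _ (lift_s s' q hs'))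

theorem meets_fnot_Lf {N : Set (SC K)} {q : QC K Unit}
    (hq : q ∈ meets (fnot (meets (Lf (meets N))))) : q.s ∈ fnot (meets N) := by
  have h1 := meets_fnot (down_meets _) hq
  intro s' hs' hφ
  exact h1 (lift s' q hs') (lift_le s' q hs')
    (meets_of_mem (down_meets _ _ hφ _ (lift_s s' q hs')))

end

end Pool.Agent.W877.Full
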