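import Mathlib
import Pool.Agent.W877.Full.Trans

set_option autoImplicit false

/-!
# The threads given by the measure
-/

namespace Pool.Agent.W877.Full

open Cardinal Set Pool.Agent.Helper669.Forcing Pool.Agent.Helper669.K

variable {κ : Cardinal.{0}} [SuccOrder κ.ord.ToType] [NoMaxOrder κ.ord.ToType]

/-- the set of all `ζ` which belong to the `n`-th member of the family at `β` for almost
all `β` -/
def en (U : (κ.ord.ToType → Set (QC κ.ord.ToType Unit)) → Set (QC κ.ord.ToType Unit))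
    (X : κ.ord.ToType → ℕ → κ.ord.ToType → Set (SC κ.ord.ToType)) (n : ℕ) (ζ : κ.ord.ToType) :
    Set (QC κ.ord.ToType Unit) := meets (U fun β => Lf (meets (X β n ζ)))

variable {U : (κ.ord.ToType → Set (QC κ.ord.ToType Unit)) → Set (QC κ.ord.ToType Unit)}
  {X : κ.ord.ToType → ℕ → κ.ord.ToType → Set (SC κ.ord.ToType)}

omit [SuccOrder κ.ord.ToType] [NoMaxOrder κ.ord.ToType] in
theorem down_en (n : ℕ) (ζ : κ.ord.ToType) : Down (en U X n ζ) := down_meets _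

theorem mk_Iio_lt (α : κ.ord.ToType) : #(Set.Iio α) < κ := by
  have := Cardinal.mk_Iio_lt α (by simp)
  rwa [Cardinal.mk_ord_toType] at this

theorem mk_Iic_lt (hκ : κ.IsRegular) (α : κ.ord.ToType) : #(Set.Iic α) < κ :=
  kur_Iic hκ α

/-- deciding initial segments of all threads -/
theorem exists_dec (hκ : κ.IsRegular) (h0 : ℵ₀ < κ) (q : QC κ.ord.ToType Unit)
    (α : κ.ord.ToType) :
    ∃ q' ≤ q, ∀ n, ∀ ζ < α, q' ∈ en U X n ζ ∨ q' ∈ fnot (en U X n ζ) := by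
  have hcard : #(ℕ × Set.Iio α) < κ := by
    rw [mk_prod, lift_id, lift_id, mk_nat]
    exact mul_lt_of_lt hκ.aleph0_le h0 (mk_Iio_lt α)
  obtain ⟨q', hq', h⟩ := exists_forall_mem hκ.aleph0_le
    (dirClosed_QC hκ (fun _ => ()) (fun _ => ⟨0, rfl⟩)) hcard
    (fun i => {q | q ∈ en U X i.1 i.2.1 ∨ q ∈ fnot (en U X i.1 i.2.1)})
    (fun i p hp q hq => hp.imp (fun h => down_meets _ _ h _ hq) (fun h => down_fnot _ _ h _ hq))
    (fun i q => exists_decide' _ q) q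
  exact ⟨q', hq', fun n ζ hζ => h (n, ⟨ζ, hζ⟩)⟩

/-- picking a point -/
theorem pick (hκ : κ.IsRegular)
    (hU : ∀ q : QC κ.ord.ToType Unit, q ∈ IsMeasure κ U) (q : QC κ.ord.ToType Unit) (n : ℕ)
    (α δ : κ.ord.ToType) (hdec : ∀ ζ < α, q ∈ en U X n ζ ∨ q ∈ fnot (en U X n ζ))
    {N : Type} (hN : #N < κ) (B : N → κ.ord.ToType → Set (QC κ.ord.ToType Unit))
    (hB : ∀ i, q ∈ meets (U (B i))) :
    ∃ q' ≤ q, ∃ β, δ < β ∧ (∀ i, q' ∈ meets (B i β)) ∧ ∀ ζ < α,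
      (q ∈ en U X n ζ → q'.s ∈ meets (X β n ζ)) ∧
      (q ∈ fnot (en U X n ζ) → q'.s ∈ fnot (meets (X β n ζ))) := by
  classical
  let C : Set.Iio α ⊕ N → κ.ord.ToType → Set (QC κ.ord.ToType Unit) := fun i =>
    match i with
    | Sum.inl ζ => if q ∈ en U X n ζ.1 then fun β => Lf (meets (X β n ζ.1))
        else nCompl fun β => Lf (meets (X β n ζ.1))
    | Sum.inr i => B i
  have hC : ∀ i, q ∈ meets (U (C i)) := by
    rintro (⟨ζ, hζ⟩ | i)
    · by_cases h : q ∈ en U X n ζ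
      · simp only [C, h, if_true]
        exact h
      · simp only [C, h, if_false]
        refine compl_mem hU ?_
        exact (hdec ζ hζ).resolve_left h
    · exact hB i
  obtain ⟨q', hq', β, hβ, h⟩ := exists_point hκ.aleph0_le hU (N := Set.Iio α ⊕ N) (by
    rw [← Cardinal.add_def]
    exact Cardinal.add_lt_of_lt hκ.aleph0_le (mk_Iio_lt α) hN) C q hC (Set.Iic δ)
    (mk_Iic_lt hκ δ)
  refine ⟨q', hq', β, not_le.1 hβ, fun i => h (Sum.inr i), fun ζ hζ => ⟨fun h1 => ?_,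
    fun h1 => ?_⟩⟩
  · have h2 := h (Sum.inl ⟨ζ, hζ⟩)
    simp only [C, h1, if_true] at h2
    exact meets_Lf (down_meets _) (en_Reg_meets _) h2
  · have h1' : q ∉ en U X n ζ := fun h => h1 q le_rfl h
    have h2 := h (Sum.inl ⟨ζ, hζ⟩)
    simp only [C, h1', if_false] at h2
    exact meets_fnot_Lf h2

/-- the threads are unbounded -/
theorem unb (hκ : κ.IsRegular) (h0 : ℵ₀ < κ)
    (hU : ∀ q : QC κ.ord.ToType Unit, q ∈ IsMeasure κ U)
    (hN : ∀ q : QC κ.ord.ToType Unit, q ∈ IsNormal U)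
    (q : QC κ.ord.ToType Unit) (hX : q.s ∈ FCoherent X) (n : ℕ)
    (ξ : κ.ord.ToType) : ∃ q' ≤ q, ∃ ζ, ξ < ζ ∧ q' ∈ en U X n ζ := by
  by_contra hcon
  push Not at hcon
  let Y : κ.ord.ToType → κ.ord.ToType → Set (QC κ.ord.ToType Unit) := fun ζ =>
    nCompl fun β => Lf (meets (X β n (max ζ (Order.succ ξ))))
  have hY : ∀ ζ, q ∈ meets (U (Y ζ)) := by
    intro ζ
    refine compl_mem hU ?_
    intro q' hq'
    exact hcon q' hq' _ (lt_of_lt_of_le (Order.lt_succ ξ) (le_max_right _ _))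
  obtain ⟨q1, hq1, h1⟩ := mem_fimp.1 (hN q Y) q le_rfl hY
  obtain ⟨q2, hq2, β, hβ, h2⟩ := exists_point hκ.aleph0_le hU (N := Unit)
    (by rw [Cardinal.mk_unit]; exact Cardinal.one_lt_aleph0.trans h0) (fun _ => _) q1
    (fun _ => h1) (Set.Iic (Order.succ ξ)) (mk_Iic_lt hκ _)
  have hβ' : Order.succ ξ < β := not_le.1 hβ
  obtain ⟨q3, hq3, h3⟩ := exists_of_meets
    (down_fall fun _ => down_fall fun _ => down_meets _) (h2 ())
  have hX3 : q3.s ∈ FClubIn (X β n) β :=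
    down_FCoherent X _ hX _ (hq3.trans (hq2.trans hq1)).1 |>.1 β n
  obtain ⟨s4, hs4, η, hη, h4⟩ := mem_fex.1 (hX3.2.1 (Order.succ ξ) hβ') q3.s le_rfl
  have hηβ : η < β := by
    obtain ⟨s5, _, h5⟩ := mem_fimp.1 (hX3.1 η) s4 hs4 h4
    exact h5
  have h5 : lift s4 q3 hs4 ∈ meets (Y η β) := down_meets _ _ (h3 η hηβ) _ (lift_le s4 q3 hs4)
  have h6 : max η (Order.succ ξ) = η := max_eq_left hη
  have h7 := meets_fnot_Lf h5
  rw [h6] at h7
  exact h7 _ le_rfl (down_meets _ _ h4 _ (lift_s s4 q3 hs4))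

/-- comparing the set at `β` with a set at `α` -/
theorem matchC (q : QC κ.ord.ToType Unit) (hX : q.s ∈ FCoherent X) (n : ℕ)
    (α β : κ.ord.ToType) (hαβ : α < β) (hacc : q.s ∈ FAcc (X β n) α) :
    ∃ q' ≤ q, ∃ m, ∀ ζ < α, (q.s ∈ meets (X β n ζ) → q'.s ∈ meets (X α m ζ)) ∧
      (q.s ∈ fnot (meets (X β n ζ)) → q'.s ∈ fnot (meets (X α m ζ))) := by
  obtain ⟨s1, hs1, h1⟩ := mem_fimp.1 (hX.2 β n α hαβ) q.s le_rfl hacc
  obtain ⟨s2, hs2, m, hm⟩ := mem_fex.1 h1 s1 le_rfl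
  have hle : s2 ≤ q.s := hs2.trans hs1
  have hm' : (lift s2 q hle).s ∈ FSameBelow (X β n) (X α m) α :=
    down_FSameBelow _ _ _ _ hm _ (lift_s s2 q hle)
  refine ⟨lift s2 q hle, lift_le s2 q hle, m, fun ζ hζ => ⟨fun h => ?_, fun h => ?_⟩⟩
  · exact FSameBelow.mp hm' hζ (down_meets _ _ h _ (lift_le s2 q hle).1)
  · exact FSameBelow.mp_not hm' hζ (down_fnot _ _ h _ (lift_le s2 q hle).1)

/-- a limit point of a thread -/
theorem at_limit (hκ : κ.IsRegular) (h0 : ℵ₀ < κ)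
    (hU : ∀ q : QC κ.ord.ToType Unit, q ∈ IsMeasure κ U)
    (q : QC κ.ord.ToType Unit) (hX : q.s ∈ FCoherent X) (n : ℕ) (α : κ.ord.ToType)
    (hdec : ∀ ζ ≤ α, q ∈ en U X n ζ ∨ q ∈ fnot (en U X n ζ))
    (hacc : Acc {ζ | q ∈ en U X n ζ} α) :
    q ∈ en U X n α ∧ ∃ q' ≤ q, ∃ m, ∀ ζ < α, (q ∈ en U X n ζ → q'.s ∈ meets (X α m ζ)) ∧
      (q ∈ fnot (en U X n ζ) → q'.s ∈ fnot (meets (X α m ζ))) := by
  obtain ⟨q1, hq1, β, hβ, -, h1⟩ := pick hκ hU (X := X) q n (Order.succ α) α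
    (fun ζ hζ => hdec ζ (Order.lt_succ_iff.1 hζ)) (N := Empty)
    (by rw [Cardinal.mk_eq_zero]; exact Cardinal.aleph0_pos.trans h0) (fun i => i.elim)
    (fun i => i.elim)
  have hX1 : q1.s ∈ FCoherent X := down_FCoherent X _ hX _ hq1.1
  have hF : q1.s ∈ FAcc (X β n) α := by
    refine ⟨hacc.1, fun ξ hξ => ?_⟩
    obtain ⟨η, hη, h2, h3⟩ := hacc.2 ξ hξ
    refine mem_fex_of_mem η (down_fand (down_fground _) (down_meets _)) ⟨⟨h2, h3⟩, ?_⟩
    exact (h1 η (h3.trans (Order.lt_succ α))).1 hη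
  constructor
  · rcases hdec α le_rfl with h | h
    · exact h
    · exfalso
      have h2 : q1.s ∈ fnot (meets (X β n α)) := (h1 α (Order.lt_succ α)).2 h
      have h3 : q1.s ∈ meets (X β n α) :=
        fimp_mp (down_FAcc _ _) (en_Reg_meets _) ((hX1.1 β n).2.2 α hβ) hF
      exact not_both h3 h2
  · obtain ⟨q2, hq2, m, hm⟩ := matchC q1 hX1 n α β hβ hF
    exact ⟨q2, hq2.trans hq1, m, fun ζ hζ =>
      ⟨fun h => (hm ζ hζ).1 ((h1 ζ (hζ.trans (Order.lt_succ α))).1 h),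
        fun h => (hm ζ hζ).2 ((h1 ζ (hζ.trans (Order.lt_succ α))).2 h)⟩⟩

/-- the use of a member of `A_X` -/
theorem use_A (hκ : κ.IsRegular) (h0 : ℵ₀ < κ)
    (hU : ∀ q : QC κ.ord.ToType Unit, q ∈ IsMeasure κ U)
    (hN : ∀ q : QC κ.ord.ToType Unit, q ∈ IsNormal U)
    (q : QC κ.ord.ToType Unit) (α : κ.ord.ToType) (D : κ.ord.ToType → Set (SC κ.ord.ToType))
    (hD : q.s ∈ FClub D) (hDα : ∀ β, q.s ∈ fimp (meets (D β))
      (fex fun n : ℕ => fand (fground (α < β)) (FAcc (X β n) α))) :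
    ∃ q' ≤ q, ∃ n : ℕ, q' ∈ meets (U fun β => Lf (FAcc (X β n) α)) := by
  by_contra hcon
  push Not at hcon
  have hZ : ∀ n : ℕ, q ∈ meets (U (nCompl fun β => Lf (FAcc (X β n) α))) := fun n =>
    compl_mem hU fun q' hq' => hcon q' hq' n
  let Y : κ.ord.ToType → κ.ord.ToType → Set (QC κ.ord.ToType Unit) := fun ζ β =>
    Lf (fex fun η : κ.ord.ToType => fand (fground (ζ < η ∧ η < β)) (meets (D η)))
  have hY : ∀ ζ, q ∈ meets (U (Y ζ)) := by
    intro ζ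
    refine meets_of_dense' fun q1 hq1 => ?_
    obtain ⟨s2, hs2, η, hη, h2⟩ := mem_fex.1 ((down_FClub D _ hD _ hq1.1).1 (Order.succ ζ))
      q1.s le_rfl
    refine ⟨lift s2 q1 hs2, lift_le s2 q1 hs2, ?_⟩
    refine co_small h0 hU (Set.Iic η) (mk_Iic_lt hκ η) _ _ fun β hβ q3 hq3 => ?_
    refine ⟨q3, le_rfl, meets_of_mem ?_⟩
    refine mem_fex_of_mem η (down_fand (down_fground _) (down_meets _))
      ⟨⟨lt_of_lt_of_le (Order.lt_succ ζ) hη, not_le.1 hβ⟩, ?_⟩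
    exact down_meets _ _ h2 _ (hq3.1.trans (lift_s s2 q1 hs2))
  obtain ⟨q1, hq1, h1⟩ := mem_fimp.1 (hN q Y) q le_rfl hY
  obtain ⟨q2, hq2, β, hβ, h2⟩ := exists_point hκ.aleph0_le hU (N := Option ℕ)
    (by
      refine lt_of_le_of_lt ?_ h0
      exact Cardinal.mk_le_aleph0)
    (fun i => match i with
      | none => fun β => fall fun ζ : κ.ord.ToType => fall fun _ : ζ < β => meets (Y ζ β)
      | some n => nCompl fun β => Lf (FAcc (X β n) α)) q1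
    (fun i => by
      rcases i with _ | n
      · exact h1
      · exact down_meets _ _ (hZ n) _ hq1) (Set.Iic α) (mk_Iic_lt hκ _)
  have hβ' : α < β := not_le.1 hβ
  obtain ⟨q3, hq3, h3⟩ := exists_of_meets
    (down_fall fun _ => down_fall fun _ => down_meets _) (h2 none)
  have hle : q3 ≤ q := hq3.trans (hq2.trans hq1)
  have hacc : q3.s ∈ FAcc D β := by
    refine ⟨⟨α, hβ'⟩, fun ξ hξ => ?_⟩
    exact meets_Lf (down_fex _) (en_Reg_fex _) (h3 ξ hξ)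
  have hDβ : q3.s ∈ meets (D β) :=
    fimp_mp (down_FAcc _ _) (en_Reg_meets _) ((down_FClub D _ hD _ hle.1).2 β) hacc
  obtain ⟨s4, hs4, h4⟩ := mem_fimp.1 (hDα β) q3.s hle.1 hDβ
  obtain ⟨s5, hs5, n, h5⟩ := mem_fex.1 h4 s4 le_rfl
  have hs5' : s5 ≤ q3.s := hs5.trans hs4
  have h6 : q3 ∈ meets (nCompl (fun β => Lf (FAcc (X β n) α)) β) :=
    down_meets _ _ (h2 (some n)) _ hq3
  have h7 : q3 ∈ fnot (meets (Lf (FAcc (X β n) α))) := meets_fnot (down_meets _) h6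
  exact h7 (lift s5 q3 hs5') (lift_le s5 q3 hs5')
    (meets_of_mem (down_FAcc _ _ _ h5.2 _ (lift_s s5 q3 hs5')))

end Pool.Agent.W877.Full
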