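import Mathlib
import Pool.Agent.W877.Full.Meas

set_option autoImplicit false

/-!
# Separating the threads
-/

namespace Pool.Agent.W877.Full

open Cardinal Set Pool.Agent.Helper669.Forcing Pool.Agent.Helper669.K

variable {κ : Cardinal.{0}} [SuccOrder κ.ord.ToType] [NoMaxOrder κ.ord.ToType]

variable (U : (κ.ord.ToType → Set (QC κ.ord.ToType Unit)) → Set (QC κ.ord.ToType Unit))
  (X : κ.ord.ToType → ℕ → κ.ord.ToType → Set (SC κ.ord.ToType))

/-- `c` and `a` force that the `n`-th thread and the `m`-th thread differ at `ζ` -/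
def Diff (n m : ℕ) (ζ : κ.ord.ToType) (c a : QC κ.ord.ToType Unit) : Prop :=
  (c ∈ en U X n ζ ∧ a ∈ fnot (en U X m ζ)) ∨ (c ∈ fnot (en U X n ζ) ∧ a ∈ en U X m ζ)

variable {U X}

omit [SuccOrder κ.ord.ToType] [NoMaxOrder κ.ord.ToType] in
theorem Diff.mono {n m : ℕ} {ζ : κ.ord.ToType} {c a c' a' : QC κ.ord.ToType Unit}
    (h : Diff U X n m ζ c a) (hc : c' ≤ c) (ha : a' ≤ a) : Diff U X n m ζ c' a' := by
  rcases h with h | h
  · exact Or.inl ⟨down_meets _ _ h.1 _ hc, down_fnot _ _ h.2 _ ha⟩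
  · exact Or.inr ⟨down_fnot _ _ h.1 _ hc, down_meets _ _ h.2 _ ha⟩

/-- two conditions over the same first coordinate -/
noncomputable def pair (s : SC κ.ord.ToType) (c a : QC κ.ord.ToType Unit) (hc : s ≤ c.s)
    (ha : s ≤ a.s) : QC κ.ord.ToType Bool :=
  comb s (fun j => bif j then c else a) (fun j => by cases j <;> assumption)

theorem pair_s (s : SC κ.ord.ToType) (c a : QC κ.ord.ToType Unit) (hc : s ≤ c.s)
    (ha : s ≤ a.s) : (pair s c a hc ha).s ≤ s := comb_s _ _ _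

theorem pair_true (s : SC κ.ord.ToType) (c a : QC κ.ord.ToType Unit) (hc : s ≤ c.s)
    (ha : s ≤ a.s) : (pair s c a hc ha).proj true ≤ c := comb_proj _ _ _ true

theorem pair_false (s : SC κ.ord.ToType) (c a : QC κ.ord.ToType Unit) (hc : s ≤ c.s)
    (ha : s ≤ a.s) : (pair s c a hc ha).proj false ≤ a := comb_proj _ _ _ false

theorem pair_le {r : QC κ.ord.ToType Bool} (s : SC κ.ord.ToType) (c a : QC κ.ord.ToType Unit)
    (hc : s ≤ c.s) (ha : s ≤ a.s) (h : c ≤ r.proj true) (h' : a ≤ r.proj false) :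
    pair s c a hc ha ≤ r :=
  comb_le _ _ _ (fun j => by cases j <;> assumption)

theorem exists_diff (hκ : κ.IsRegular) (h0 : ℵ₀ < κ)
    (hU : ∀ q : QC κ.ord.ToType Unit, q ∈ IsMeasure κ U)
    (hN : ∀ q : QC κ.ord.ToType Unit, q ∈ IsNormal U)
    (r : QC κ.ord.ToType Bool) (hX : r.s ∈ FSquare X) (n m : ℕ) :
    ∃ r' ≤ r, ∃ ζ, Diff U X n m ζ (r'.proj true) (r'.proj false) := by
  by_contra hcon
  push Not at hcon
  let D : κ.ord.ToType → Set (SC κ.ord.ToType) := fun ζ =>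
    {s' | ∃ q ≤ r.proj true, s' ≤ q.s ∧ q ∈ en U X n ζ}
  have hDdown : ∀ ζ, Down (D ζ) := fun ζ s1 h1 s2 hs2 => by
    obtain ⟨q, hq, h2, h3⟩ := h1
    exact ⟨q, hq, hs2.trans h2, h3⟩
  have key : ∀ ζ, ∀ q ≤ r.proj true, q.s ∈ meets (D ζ) → q ∉ fnot (en U X n ζ) := by
    intro ζ q hq hs hout
    obtain ⟨s1, hs1, h1⟩ := exists_of_meets (hDdown ζ) hs
    obtain ⟨q2, hq2, h2, h3⟩ := h1
    have hs1r : s1 ≤ (r.proj false).s := hs1.trans hq.1
    -- `q2` on the left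
    obtain ⟨a, ha, hdec⟩ := exists_decide' (U fun β => Lf (meets (X β m ζ)))
      ((pair s1 q2 (r.proj false) h2 hs1r).proj false)
    have has1 : a.s ≤ s1 := ha.1.trans (pair_s s1 q2 (r.proj false) h2 hs1r)
    have har : a ≤ r.proj false := ha.trans (pair_false s1 q2 (r.proj false) h2 hs1r)
    rcases hdec with hdec | hdec
    · refine hcon (pair a.s q a (has1.trans hs1) le_rfl) (pair_le _ _ _ _ _ hq har) ζ
        (Or.inr ⟨?_, ?_⟩)
      · exact down_fnot _ _ hout _ (pair_true _ _ _ _ _)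
      · exact down_meets _ _ hdec _ (pair_false _ _ _ _ _)
    · refine hcon (pair a.s q2 a (has1.trans h2) le_rfl) (pair_le _ _ _ _ _ hq2 har) ζ
        (Or.inl ⟨?_, ?_⟩)
      · exact down_meets _ _ h3 _ (pair_true _ _ _ _ _)
      · exact down_fnot _ _ hdec _ (pair_false _ _ _ _ _)
  have hunion : ∀ q ≤ r.proj true, ∀ ζ, q ∈ en U X n ζ → q.s ∈ D ζ := fun q hq ζ h =>
    ⟨q, hq, le_rfl, h⟩
  have hnot : ∀ q ≤ r.proj true, ∀ ζ, q ∈ fnot (en U X n ζ) → q.s ∈ fnot (meets (D ζ)) := by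
    intro q hq ζ h s2 hs2 h2
    exact key ζ (lift s2 q hs2) ((lift_le s2 q hs2).trans hq)
      (down_meets _ _ h2 _ (lift_s s2 q hs2)) (down_fnot _ _ h _ (lift_le s2 q hs2))
  -- limit points
  have hlim : ∀ α, ∀ s' ≤ r.s, s' ∈ FAcc D α → ∃ s2 ≤ s', s2 ∈ meets (D α) ∧
      s2 ∈ FMemAt D X α := by
    intro α s' hs' hacc
    have hs'' : s' ≤ (r.proj true).s := hs'
    obtain ⟨q, hq, hdec⟩ := exists_dec (U := U) (X := X) hκ h0 (lift s' (r.proj true) hs'')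
      (Order.succ α)
    have hqr : q ≤ r.proj true := hq.trans (lift_le _ _ _)
    have hqs : q.s ≤ s' := hq.1.trans (lift_s _ _ _)
    have hXq : q.s ∈ FSquare X := down_FSquare X _ hX _ (hqs.trans hs')
    have hA : Acc {ζ | q ∈ en U X n ζ} α := by
      refine ⟨hacc.1, fun ξ hξ => ?_⟩
      obtain ⟨s3, hs3, η, hη, h3⟩ := mem_fex.1 (hacc.2 ξ hξ) q.s hqs
      have hη' : ξ < η ∧ η < α := hη
      refine ⟨η, ?_, hη'.1, hη'.2⟩
      refine (hdec n η (hη'.2.trans (Order.lt_succ α))).resolve_right fun hout => ?_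
      exact not_both h3 (down_fnot _ _ (hnot q hqr η hout) _ hs3)
    obtain ⟨h1, q', hq', k, hk⟩ := at_limit hκ h0 hU q hXq.1 n α
      (fun ζ hζ => hdec n ζ (Order.lt_succ_iff.2 hζ)) hA
    refine ⟨q'.s, hq'.1.trans hqs, ?_, ?_⟩
    · exact meets_of_mem (hunion q' (hq'.trans hqr) α (down_meets _ _ h1 _ hq'))
    · refine mem_fex_of_mem k (down_FSameBelow _ _ _) fun ζ hζ => ?_
      rcases hdec n ζ (hζ.trans (Order.lt_succ α)) with h2 | h2
      · have h3 : q'.s ∈ meets (D ζ) :=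
          meets_of_mem (hunion q' (hq'.trans hqr) ζ (down_meets _ _ h2 _ hq'))
        have h4 := (hk ζ hζ).1 h2
        exact ⟨mem_fimp.2 fun t ht _ => ⟨t, le_rfl, down_meets _ _ h4 _ ht⟩,
          mem_fimp.2 fun t ht _ => ⟨t, le_rfl, down_meets _ _ h3 _ ht⟩⟩
      · have h3 : q'.s ∈ fnot (meets (D ζ)) := down_fnot _ _ (hnot q hqr ζ h2) _ hq'.1
        have h4 := (hk ζ hζ).2 h2
        exact ⟨mem_fimp.2 fun t ht h => absurd h (h3 t ht),
          mem_fimp.2 fun t ht h => absurd h (h4 t ht)⟩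
  refine hX.2 D r.s le_rfl ⟨⟨?_, ?_⟩, ?_⟩
  · intro ξ
    refine mem_fex.2 fun s' hs' => ?_
    have hs'' : s' ≤ (r.proj true).s := hs'
    obtain ⟨q, hq, ζ, hζ, h1⟩ := unb (X := X) hκ h0 hU hN (lift s' (r.proj true) hs'')
      (down_FCoherent X _ hX.1 _ ((lift_s _ _ _).trans hs')) n ξ
    exact ⟨q.s, hq.1.trans (lift_s _ _ _), ζ, hζ.le,
      meets_of_mem (hunion q (hq.trans (lift_le _ _ _)) ζ h1)⟩
  · intro α
    refine mem_fimp.2 fun s' hs' hacc => ?_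
    obtain ⟨s2, hs2, h1, _⟩ := hlim α s' hs' hacc
    exact ⟨s2, hs2, h1⟩
  · intro α
    refine mem_fimp.2 fun s' hs' hacc => ?_
    obtain ⟨s2, hs2, _, h1⟩ := hlim α s' hs' hacc
    exact ⟨s2, hs2, h1⟩

variable (U X) in
/-- all threads of `c` differ from all threads of `a` below `δ` -/
def Sep (δ : κ.ord.ToType) (c a : QC κ.ord.ToType Unit) : Prop :=
  ∀ n m, ∃ ζ < δ, Diff U X n m ζ c a

theorem exists_sep (hκ : κ.IsRegular) (h0 : ℵ₀ < κ)
    (hU : ∀ q : QC κ.ord.ToType Unit, q ∈ IsMeasure κ U)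
    (hN : ∀ q : QC κ.ord.ToType Unit, q ∈ IsNormal U)
    (b : QC κ.ord.ToType Unit) (hX : b.s ∈ FSquare X) :
    ∃ c ≤ b, ∃ a ≤ b, ∃ δ, c.s = a.s ∧ Sep U X δ c a := by
  let r0 : QC κ.ord.ToType Bool := pair b.s b b le_rfl le_rfl
  have hr0 : r0.s ≤ b.s := pair_s _ _ _ _ _
  obtain ⟨r, hr, h⟩ := exists_forall_mem hκ.aleph0_le
    (dirClosed_QC hκ (fun n : ℕ => decide (n = 0)) (fun j => by
      cases j
      · exact ⟨1, by decide⟩
      · exact ⟨0, by decide⟩)) (N := ℕ × ℕ) (by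
      refine lt_of_le_of_lt ?_ h0
      exact Cardinal.mk_le_aleph0)
    (fun i => {r : QC κ.ord.ToType Bool | r.s ∈ fnot (FSquare X) ∨
      ∃ ζ, Diff U X i.1 i.2 ζ (r.proj true) (r.proj false)})
    (fun i p hp q hq => by
      rcases hp with hp | ⟨ζ, hζ⟩
      · exact Or.inl (down_fnot _ _ hp _ hq.1)
      · exact Or.inr ⟨ζ, hζ.mono (QC.proj_le hq) (QC.proj_le hq)⟩)
    (fun i q => by
      by_cases h : q.s ∈ fnot (FSquare X)
      · exact ⟨q, le_rfl, Or.inl h⟩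
      · simp only [fnot, Set.mem_ofPred_eq, not_forall, not_not] at h
        obtain ⟨s', hs', h'⟩ := h
        have h1 : ∀ j, s' ≤ (q.proj j).s := fun _ => hs'
        have h2 : comb s' (fun j => q.proj j) h1 ≤ q := comb_le _ _ _ fun _ => le_rfl
        obtain ⟨r', hr', hζ⟩ := exists_diff hκ h0 hU hN (comb s' (fun j => q.proj j) h1)
          (down_FSquare X _ h' _ (comb_s _ _ _)) i.1 i.2
        exact ⟨r', hr'.trans h2, Or.inr hζ⟩) r0
  have hrX : r.s ∈ FSquare X := down_FSquare X _ hX _ (hr.1.trans hr0)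
  have h' : ∀ i : ℕ × ℕ, ∃ ζ, Diff U X i.1 i.2 ζ (r.proj true) (r.proj false) := fun i => by
    rcases h i with h1 | h1
    · exact absurd hrX (h1 _ le_rfl)
    · exact h1
  choose ζ hζ using h'
  obtain ⟨δ, hδ⟩ := exists_bound hκ (N := ℕ × ℕ) (by
      refine lt_of_le_of_lt ?_ h0
      exact Cardinal.mk_le_aleph0) ζ
  refine ⟨r.proj true, (QC.proj_le hr).trans (pair_true _ _ _ _ _), r.proj false,
    (QC.proj_le hr).trans (pair_false _ _ _ _ _), δ, rfl, fun n m => ⟨ζ (n, m), hδ _, hζ (n, m)⟩⟩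

/-- a recursion along a well order of size less than `κ` -/
theorem exists_rec {Q T : Type} [Preorder Q] {κ : Cardinal.{0}} (hκ : ℵ₀ ≤ κ)
    (hQ : DirClosed κ Q) {N : Type} [LinearOrder N] [WellFoundedLT N] (hN : #N < κ)
    (R : Q → T → Q → Prop) (q : Q) (hR : ∀ b ≤ q, ∃ t, ∃ a ≤ b, R b t a) :
    ∃ (a b : N → Q) (t : N → T), (∀ i, a i ≤ b i ∧ b i ≤ q ∧ R (b i) (t i) (a i)) ∧
      (∀ i j, j < i → b i ≤ a j) ∧ ∃ p, p ≤ q ∧ ∀ i, p ≤ a i := by
  classical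
  have hT : T := (hR q le_rfl).choose
  let F : (i : N) → ((j : N) → j < i → Q × Q × T) → Q × Q × T := fun i g =>
    if h : ∃ p : Q × Q × T, p.2.1 ≤ q ∧ (∀ (j : N) (hj : j < i), p.2.1 ≤ (g j hj).1) ∧
      p.1 ≤ p.2.1 ∧ R p.2.1 p.2.2 p.1 then h.choose else ⟨q, q, hT⟩
  let f : N → Q × Q × T := (wellFounded_lt (α := N)).fix F
  have hf : ∀ i, f i = F i (fun j _ => f j) := fun i => (wellFounded_lt (α := N)).fix_eq F i
  have bound : ∀ S : Set N, (∀ i ∈ S, (f i).1 ≤ q) →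
      (∀ i ∈ S, ∀ j ∈ S, j < i → (f i).1 ≤ (f j).1) → ∃ p, p ≤ q ∧ ∀ i ∈ S, p ≤ (f i).1 := by
    intro S h1 h2
    obtain ⟨p, hp⟩ := hQ (insert q ((fun i => (f i).1) '' S)) (by
      refine lt_of_le_of_lt (Cardinal.mk_insert_le) ?_
      refine Cardinal.add_lt_of_lt hκ ?_ (lt_of_lt_of_le Cardinal.one_lt_aleph0 hκ)
      exact lt_of_le_of_lt (le_trans Cardinal.mk_image_le (Cardinal.mk_set_le S)) hN)
      (Set.insert_nonempty _ _) (by
        intro a ha b hb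
        rcases ha with rfl | ⟨i, hi, rfl⟩
        · exact ⟨b, hb, by
            rcases hb with rfl | ⟨j, hj, rfl⟩
            · exact le_refl _
            · exact h1 j hj, le_refl _⟩
        · rcases hb with rfl | ⟨j, hj, rfl⟩
          · exact ⟨(f i).1, Or.inr ⟨i, hi, rfl⟩, le_refl _, h1 i hi⟩
          · rcases lt_trichotomy i j with h | h | h
            · exact ⟨(f j).1, Or.inr ⟨j, hj, rfl⟩, h2 j hj i hi h, le_refl _⟩
            · subst h
              exact ⟨(f i).1, Or.inr ⟨i, hi, rfl⟩, le_refl _, le_refl _⟩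
            · exact ⟨(f i).1, Or.inr ⟨i, hi, rfl⟩, le_refl _, h2 i hi j hj h⟩)
    exact ⟨p, hp q (Or.inl rfl), fun i hi => hp _ (Or.inr ⟨i, hi, rfl⟩)⟩
  have inv : ∀ i, (f i).2.1 ≤ q ∧ (∀ j < i, (f i).2.1 ≤ (f j).1) ∧ (f i).1 ≤ (f i).2.1 ∧
      R (f i).2.1 (f i).2.2 (f i).1 := by
    intro i
    induction i using (wellFounded_lt (α := N)).induction with
    | _ i ih =>
    have hex : ∃ p : Q × Q × T, p.2.1 ≤ q ∧ (∀ (j : N) (_ : j < i), p.2.1 ≤ (f j).1) ∧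
        p.1 ≤ p.2.1 ∧ R p.2.1 p.2.2 p.1 := by
      obtain ⟨p0, hp0, hp1⟩ := bound {j | j < i} (fun j hj => (ih j hj).2.2.1.trans (ih j hj).1)
        (fun j hj j' _ hjj' => (ih j hj).2.2.1.trans ((ih j hj).2.1 j' hjj'))
      obtain ⟨t, a, ha, hRa⟩ := hR p0 hp0
      exact ⟨⟨a, p0, t⟩, hp0, fun j hj => hp1 j hj, ha, hRa⟩
    have e : f i = hex.choose := by
      rw [hf i]
      simp only [F]
      rw [dif_pos hex]
    rw [e]
    exact hex.choose_spec
  obtain ⟨p, hp, hp'⟩ := bound Set.univ (fun i _ => (inv i).2.2.1.trans (inv i).1)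
    (fun i _ j _ h => (inv i).2.2.1.trans ((inv i).2.1 j h))
  exact ⟨fun i => (f i).1, fun i => (f i).2.1, fun i => (f i).2.2,
    fun i => ⟨(inv i).2.2.1, (inv i).1, (inv i).2.2.2⟩, fun i j hj => (inv i).2.1 j hj,
    p, hp, fun i => hp' i (Set.mem_univ i)⟩

end Pool.Agent.W877.Full
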