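import Mathlib
import Pool.Agent.W877.Full.Sep

set_option autoImplicit false

/-!
# No full sequences
-/

namespace Pool.Agent.W877.Full

open Cardinal Set Pool.Agent.Helper669.Forcing Pool.Agent.Helper669.K

theorem exists_same {N : Type} [LinearOrder N] (hN : ℵ₀ < #N) (m : N → ℕ) :
    ∃ i j, i < j ∧ m i = m j := by
  by_contra hcon
  push Not at hcon
  have hinj : Function.Injective m := by
    intro i j h
    rcases lt_trichotomy i j with h1 | h1 | h1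
    · exact absurd h (hcon i j h1)
    · exact h1
    · exact absurd h.symm (hcon j i h1)
  have := Cardinal.mk_le_of_injective hinj
  rw [Cardinal.mk_nat] at this
  exact absurd this (not_le.2 hN)

variable {κ : Cardinal.{0}} [SuccOrder κ.ord.ToType] [NoMaxOrder κ.ord.ToType]

theorem not_full (hκ : κ.IsRegular) (h1 : ℵ₁ < κ)
    {U : (κ.ord.ToType → Set (QC κ.ord.ToType Unit)) → Set (QC κ.ord.ToType Unit)}
    (hU : ∀ q : QC κ.ord.ToType Unit, q ∈ IsMeasure κ U)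
    (hN : ∀ q : QC κ.ord.ToType Unit, q ∈ IsNormal U)
    (X : κ.ord.ToType → ℕ → κ.ord.ToType → Set (SC κ.ord.ToType)) (s0 : SC κ.ord.ToType)
    (hX : s0 ∈ FSquare X) (hfull : s0 ∈ FFull X) : False := by
  have h0 : ℵ₀ < κ := Cardinal.aleph0_lt_aleph_one.trans h1
  have hcard : #(ℵ₁ : Cardinal.{0}).ord.ToType = ℵ₁ := Cardinal.mk_ord_toType _
  obtain ⟨a, b, t, hab, hmono, p, hp, hpa⟩ := exists_rec hκ.aleph0_le
    (dirClosed_QC hκ (fun _ => ()) (fun _ => ⟨0, rfl⟩))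
    (N := (ℵ₁ : Cardinal.{0}).ord.ToType) (by rw [hcard]; exact h1)
    (fun (b : QC κ.ord.ToType Unit) (t : QC κ.ord.ToType Unit × κ.ord.ToType)
      (a : QC κ.ord.ToType Unit) => t.1 ≤ b ∧ t.1.s = a.s ∧ Sep U X t.2 t.1 a) (ofS s0)
    (fun b hb => by
      obtain ⟨c, hc, a, ha, δ, h2, h3⟩ := exists_sep hκ h0 hU hN b
        (down_FSquare X _ hX _ hb.1)
      exact ⟨(c, δ), a, ha, hc, h2, h3⟩)
  obtain ⟨δ, hδ⟩ := exists_bound hκ (N := (ℵ₁ : Cardinal.{0}).ord.ToType)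
    (by rw [hcard]; exact h1) (fun i => (t i).2)
  have hps0 : p.s ≤ s0 := hp.1
  obtain ⟨s1, hs1, α, hα, h2⟩ := mem_fex.1 (hfull δ) p.s hps0
  obtain ⟨s3, hs3, D, hD, hDα⟩ := mem_fex.1 h2 s1 le_rfl
  have hδα : δ ≤ α := hα
  have hs3p : s3 ≤ p.s := hs3.trans hs1
  -- the dense sets
  let E : (ℵ₁ : Cardinal.{0}).ord.ToType → Set (SC κ.ord.ToType) := fun i =>
    {s' | ∃ q ≤ (t i).1, s' ≤ q.s ∧ ∃ n m, ∀ ζ < α,
      (q ∈ en U X n ζ ∧ q.s ∈ meets (X α m ζ)) ∨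
      (q ∈ fnot (en U X n ζ) ∧ q.s ∈ fnot (meets (X α m ζ)))}
  have hE : ∀ i, ∀ s' ≤ s3, ∃ s'' ≤ s', s'' ∈ E i := by
    intro i s' hs'
    have hle : s' ≤ (t i).1.s := by
      rw [(hab i).2.2.2.1]
      exact (hs'.trans hs3p).trans (hpa i).1
    have hl : (lift s' (t i).1 hle).s ≤ s3 := (lift_s _ _ _).trans hs'
    obtain ⟨q1, hq1, n, hn⟩ := use_A (X := X) hκ h0 hU hN (lift s' (t i).1 hle) α D
      (down_FClub D _ hD _ hl) (fun β => down_fimp _ _ _ (hDα β) _ hl)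
    obtain ⟨q2, hq2, hdec⟩ := exists_dec (U := U) (X := X) hκ h0 q1 α
    obtain ⟨q3, hq3, β, hβ, hB, h4⟩ := pick hκ hU (X := X) q2 n α α (hdec n) (N := Unit)
      (by rw [Cardinal.mk_unit]; exact Cardinal.one_lt_aleph0.trans h0)
      (fun _ β => Lf (FAcc (X β n) α)) (fun _ => down_meets _ _ hn _ hq2)
    have hacc : q3.s ∈ FAcc (X β n) α := meets_Lf (down_FAcc _ _) (reg_FAcc _ _) (hB ())
    have hq3s : q3.s ≤ s3 := (hq3.trans (hq2.trans hq1)).1.trans hl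
    obtain ⟨q4, hq4, m, h5⟩ := matchC q3
      (down_FSquare X _ hX _ (hq3s.trans (hs3p.trans hps0))).1 n α β hβ hacc
    refine ⟨q4.s, (hq4.trans (hq3.trans (hq2.trans hq1))).1.trans (lift_s _ _ _), q4,
      (hq4.trans (hq3.trans (hq2.trans hq1))).trans (lift_le _ _ _), le_rfl, n, m, ?_⟩
    intro ζ hζ
    rcases hdec n ζ hζ with h | h
    · exact Or.inl ⟨down_meets _ _ h _ (hq4.trans hq3), (h5 ζ hζ).1 ((h4 ζ hζ).1 h)⟩
    · exact Or.inr ⟨down_fnot _ _ h _ (hq4.trans hq3), (h5 ζ hζ).2 ((h4 ζ hζ).2 h)⟩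
  have hEdown : ∀ i, Down (E i) := fun i u hu v hv => by
    obtain ⟨q, hq, h3, h4⟩ := hu
    exact ⟨q, hq, hv.trans h3, h4⟩
  obtain ⟨q, hq, hqE⟩ := exists_forall_mem hκ.aleph0_le
    (dirClosed_QC hκ (fun _ => ()) (fun _ => ⟨0, rfl⟩))
    (N := (ℵ₁ : Cardinal.{0}).ord.ToType) (by rw [hcard]; exact h1)
    (fun i => {q : QC κ.ord.ToType Unit | (∀ r ≤ q, ¬ r.s ≤ s3) ∨ q.s ∈ E i})
    (fun i u hu v hv => by
      rcases hu with hu | hu
      · exact Or.inl fun r hr => hu r (hr.trans hv)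
      · exact Or.inr (hEdown i _ hu _ hv.1))
    (fun i u => by
      by_cases h : ∃ r ≤ u, r.s ≤ s3
      · obtain ⟨r, hr, hrs⟩ := h
        obtain ⟨s'', hs'', h3⟩ := hE i r.s hrs
        exact ⟨lift s'' r hs'', (lift_le _ _ _).trans hr,
          Or.inr (hEdown i _ h3 _ (lift_s _ _ _))⟩
      · push Not at h
        exact ⟨u, le_rfl, Or.inl h⟩) (ofS s3)
  have hqE' : ∀ i, q.s ∈ E i := fun i => (hqE i).resolve_left fun h => h q le_rfl hq.1
  choose r hr hqr n m hnm using hqE'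
  obtain ⟨i, j, hij, hm⟩ := exists_same (by rw [hcard]; exact Cardinal.aleph0_lt_aleph_one) m
  -- `i < j`
  obtain ⟨ζ, hζ, hdiff⟩ := (hab i).2.2.2.2 (n i) (n j)
  have hζα : ζ < α := hζ.trans ((hδ i).trans_le hδα)
  have hj : r j ≤ a i := (hr j).trans ((hab j).2.2.1.trans (hmono j i hij))
  have hdiff' := hdiff.mono (hr i) hj
  have hi1 := hnm i ζ hζα
  have hj1 := hnm j ζ hζα
  rw [← hm] at hj1
  have hcl : ∀ {N : Set (SC κ.ord.ToType)}, (r i).s ∈ meets N → (r j).s ∈ fnot (meets N) →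
      False := fun h h' =>
    not_both (down_meets _ _ h _ (hqr i)) (down_fnot _ _ h' _ (hqr j))
  have hcl' : ∀ {N : Set (SC κ.ord.ToType)}, (r j).s ∈ meets N → (r i).s ∈ fnot (meets N) →
      False := fun h h' =>
    not_both (down_meets _ _ h _ (hqr j)) (down_fnot _ _ h' _ (hqr i))
  rcases hdiff' with ⟨h3, h4⟩ | ⟨h3, h4⟩
  · rcases hi1 with ⟨_, h5⟩ | ⟨h5, _⟩
    · rcases hj1 with ⟨h6, _⟩ | ⟨_, h6⟩
      · exact not_both h6 h4
      · exact hcl h5 h6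
    · exact not_both h3 h5
  · rcases hi1 with ⟨h5, _⟩ | ⟨_, h5⟩
    · exact not_both h5 h3
    · rcases hj1 with ⟨_, h6⟩ | ⟨h6, _⟩
      · exact hcl' h6 h5
      · exact not_both h4 h6

end Pool.Agent.W877.Full
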