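import Mathlib
import Pool.Agent.W877.Full.NoFull

set_option autoImplicit false

/-!
# The generic sequence
-/

namespace Pool.Agent.W877.Full

open Cardinal Set Pool.Agent.Helper669.Forcing Pool.Agent.Helper669.K

section

variable {K : Type} [LinearOrder K]

/-- the name of the generic sequence -/
def gen (β : K) (n : ℕ) (ζ : K) : Set (SC K) := {s | β ≤ s.len ∧ ζ ∈ s.x β n}

theorem meets_gen {s : SC K} {β : K} (h : β ≤ s.len) {n : ℕ} {ζ : K} :
    s ∈ meets (gen β n ζ) ↔ ζ ∈ s.x β n := by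
  constructor
  · intro h1
    obtain ⟨r, hr, s1, hs1, hle⟩ := h1 s le_rfl
    rw [← hr.2 β h, hle.2 β hs1.1]
    exact hs1.2
  · intro h1
    exact meets_of_mem ⟨h, h1⟩

theorem acc_gen {s : SC K} {β : K} (h : β ≤ s.len) {n : ℕ} {α : K} :
    s ∈ FAcc (gen β n) α ↔ Acc (s.x β n) α := by
  constructor
  · intro h1
    refine ⟨h1.1, fun ξ hξ => ?_⟩
    obtain ⟨r, hr, η, hη, h2⟩ := mem_fex.1 (h1.2 ξ hξ) s le_rfl
    have h3 := (meets_gen (h.trans hr.1)).1 h2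
    rw [hr.2 β h] at h3
    exact ⟨η, h3, hη⟩
  · intro h1
    refine ⟨h1.1, fun ξ hξ => ?_⟩
    obtain ⟨η, hη, h2⟩ := h1.2 ξ hξ
    exact mem_fex_of_mem η (down_fand (down_fground _) (down_meets _)) ⟨h2, (meets_gen h).2 hη⟩

end

variable {κ : Cardinal.{0}} [SuccOrder κ.ord.ToType] [NoMaxOrder κ.ord.ToType]

theorem exists_long (hκ : κ.IsRegular) (β : κ.ord.ToType) :
    ∀ q : QC κ.ord.ToType Unit, ∃ q' ≤ q, β ≤ q'.s.len := by
  induction β using (wellFounded_lt (α := κ.ord.ToType)).induction with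
  | _ β ih =>
  intro q
  obtain ⟨q', hq', h⟩ := exists_forall_mem hκ.aleph0_le
    (dirClosed_QC hκ (fun _ => ()) (fun _ => ⟨0, rfl⟩)) (N := Set.Iio β) (mk_Iio_lt β)
    (fun i => {q | i.1 ≤ q.s.len}) (fun i u hu v hv => le_trans hu hv.1.1)
    (fun i u => ih i.1 i.2 u) q
  refine ⟨lift q'.s q' le_rfl, (lift_le _ _ _).trans hq', ?_⟩
  rw [lift_len]
  by_contra hcon
  have h1 := h ⟨_, not_le.1 hcon⟩
  exact absurd (Order.lt_succ q'.s.len) (not_lt.2 h1)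

theorem exists_longS (hκ : κ.IsRegular) (β : κ.ord.ToType) (s : SC κ.ord.ToType) :
    ∃ s' ≤ s, β ≤ s'.len := by
  obtain ⟨q, hq, h⟩ := exists_long hκ β (ofS s)
  exact ⟨q.s, hq.1, h⟩

theorem coherent_gen (hκ : κ.IsRegular) (s : SC κ.ord.ToType) : s ∈ FCoherent gen := by
  constructor
  · intro β n
    refine reg_FClubIn _ _ s fun s' hs' => ?_
    obtain ⟨s2, hs2, h⟩ := exists_longS hκ β s'
    refine ⟨s2, hs2, ?_, ?_, ?_⟩
    · intro η
      refine mem_fimp.2 fun r hr hη => ⟨r, le_rfl, ?_⟩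
      exact (r.club β (h.trans hr.1) n).1 η ((meets_gen (h.trans hr.1)).1 hη)
    · intro ξ hξ
      obtain ⟨η, hη, hle⟩ := (s2.club β h n).2.1 ξ hξ
      exact mem_fex_of_mem η (down_fand (down_fground _) (down_meets _))
        ⟨hle, (meets_gen h).2 hη⟩
    · intro α hα
      refine mem_fimp.2 fun r hr hacc => ⟨r, le_rfl, ?_⟩
      exact (meets_gen (h.trans hr.1)).2
        ((r.club β (h.trans hr.1) n).2.2 α hα ((acc_gen (h.trans hr.1)).1 hacc))
  · intro β n α hα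
    refine mem_fimp.2 fun s' hs' hacc => ?_
    obtain ⟨s2, hs2, h⟩ := exists_longS hκ β s'
    obtain ⟨m, hm⟩ := s2.coh β h n α hα ((acc_gen h).1 (down_FAcc _ _ _ hacc _ hs2))
    refine ⟨s2, hs2, mem_fex_of_mem m (down_FSameBelow _ _ _) fun η hη => ?_⟩
    refine ⟨mem_fimp.2 fun r hr h1 => ⟨r, le_rfl, ?_⟩, mem_fimp.2 fun r hr h1 =>
      ⟨r, le_rfl, ?_⟩⟩
    · have hβ := h.trans hr.1
      have h2 := (meets_gen hβ).1 h1
      rw [hr.2 β h] at h2
      refine (meets_gen (hα.le.trans hβ)).2 ?_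
      rw [hr.2 α (hα.le.trans h)]
      exact (hm η hη).1 h2
    · have hβ := h.trans hr.1
      have h2 := (meets_gen (hα.le.trans hβ)).1 h1
      rw [hr.2 α (hα.le.trans h)] at h2
      refine (meets_gen hβ).2 ?_
      rw [hr.2 β h]
      exact (hm η hη).2 h2

/-- the condition at the limit of an increasing sequence of length `ω` -/
theorem exists_limit (s : ℕ → SC κ.ord.ToType) (hs : ∀ k, s (k + 1) ≤ s k)
    (hlt : ∀ k, (s k).len < (s (k + 1)).len) (α : κ.ord.ToType) (h1 : ∀ k, (s k).len < α)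
    (h2 : ∀ ξ < α, ∃ k, ξ < (s k).len) :
    ∃ t : SC κ.ord.ToType, t.len = α ∧ (∀ k, t ≤ s k) ∧
      ∀ m, ∀ ζ, ζ ∈ t.x α m ↔ ∃ k, ζ = (s k).len := by
  classical
  have hanti : ∀ k l, k ≤ l → s l ≤ s k := by
    intro k l h
    induction h with
    | refl => exact le_rfl
    | step _ ih => exact (hs _).trans ih
  have hmono : StrictMono fun k => (s k).len := strictMono_nat_of_lt_succ hlt
  have hnoacc : ∀ γ, γ < α → ¬ Acc {ζ | ∃ k, ζ = (s k).len} γ := by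
    intro γ hγ hacc
    obtain ⟨k, hk⟩ := h2 γ hγ
    have hex : ∃ k, γ ≤ (s k).len := ⟨k, hk.le⟩
    obtain ⟨l, hl, hmin⟩ : ∃ l, γ ≤ (s l).len ∧ ∀ i < l, (s i).len < γ :=
      ⟨Nat.find hex, Nat.find_spec hex, fun i hi => not_le.1 (Nat.find_min hex hi)⟩
    obtain ⟨ξ, hξ⟩ := hacc.1
    obtain ⟨η, ⟨i, rfl⟩, _, h4⟩ := hacc.2 ξ hξ
    have hil : i < l := by
      by_contra hcon
      exact absurd (hl.trans (hmono.monotone (not_lt.1 hcon))) (not_le.2 h4)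
    obtain ⟨j, rfl⟩ : ∃ j, l = j + 1 := ⟨l - 1, by omega⟩
    obtain ⟨η, ⟨i', rfl⟩, h5, h6⟩ := hacc.2 _ (hmin j (Nat.lt_succ_self j))
    have h7 : j < i' := hmono.lt_iff_lt.1 h5
    exact absurd (hl.trans (hmono.monotone (Nat.succ_le_of_lt h7))) (not_le.2 h6)
  let x : κ.ord.ToType → ℕ → Set κ.ord.ToType := fun β n =>
    if h : ∃ k, β ≤ (s k).len then (s h.choose).x β n else {ζ | ∃ k, ζ = (s k).len}
  have hx : ∀ k β, β ≤ (s k).len → x β = (s k).x β := by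
    intro k β hβ
    have h : ∃ k, β ≤ (s k).len := ⟨k, hβ⟩
    funext n
    simp only [x, dif_pos h]
    rcases le_total k h.choose with h' | h'
    · rw [(hanti _ _ h').2 β hβ]
    · rw [← (hanti _ _ h').2 β h.choose_spec]
  have hxα : ∀ n, x α n = {ζ | ∃ k, ζ = (s k).len} := by
    intro n
    have h : ¬ ∃ k, α ≤ (s k).len := by
      rintro ⟨k, hk⟩
      exact absurd (h1 k) (not_lt.2 hk)
    simp only [x, dif_neg h]
  refine ⟨⟨α, x, ?_, ?_⟩, rfl, fun k => ⟨(h1 k).le, fun β hβ => hx k β hβ⟩, fun m ζ => ?_⟩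
  · intro β hβ n
    rcases hβ.lt_or_eq with h | h
    · obtain ⟨k, hk⟩ := h2 β h
      rw [hx k β hk.le]
      exact (s k).club β hk.le n
    · subst h
      rw [hxα]
      refine ⟨?_, ?_, fun γ hγ hacc => absurd hacc (hnoacc γ hγ)⟩
      · rintro η ⟨k, rfl⟩
        exact h1 k
      · intro ξ hξ
        obtain ⟨k, hk⟩ := h2 ξ hξ
        exact ⟨_, ⟨k, rfl⟩, hk.le⟩
  · intro β hβ n γ hγ hacc
    rcases hβ.lt_or_eq with h | h
    · obtain ⟨k, hk⟩ := h2 β h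
      rw [hx k β hk.le] at hacc ⊢
      rw [hx k γ (hγ.le.trans hk.le)]
      exact (s k).coh β hk.le n γ hγ hacc
    · subst h
      rw [hxα] at hacc
      exact absurd hacc (hnoacc γ hγ)
  · show ζ ∈ x α m ↔ _
    rw [hxα]
    rfl

theorem no_thread (hκ : κ.IsRegular) (h0 : ℵ₀ < κ) (D : κ.ord.ToType → Set (SC κ.ord.ToType))
    (s0 : SC κ.ord.ToType) (hD : s0 ∈ FThread gen D) : False := by
  have hstep : ∀ u : {s : SC κ.ord.ToType // s ≤ s0}, ∃ v : {s : SC κ.ord.ToType // s ≤ s0},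
      ∃ δ, v.1 ≤ u.1 ∧ u.1.len < δ ∧ δ < v.1.len ∧ v.1 ∈ meets (D δ) := by
    intro u
    obtain ⟨s1, hs1, δ, hδ, h1⟩ := mem_fex.1
      ((down_FThread gen D _ hD _ u.2).1.1 (Order.succ u.1.len)) u.1 le_rfl
    obtain ⟨s2, hs2, h2⟩ := exists_longS hκ (Order.succ δ) s1
    exact ⟨⟨s2, (hs2.trans hs1).trans u.2⟩, δ, hs2.trans hs1,
      lt_of_lt_of_le (Order.lt_succ _) hδ, lt_of_lt_of_le (Order.lt_succ _) h2,
      down_meets _ _ h1 _ hs2⟩
  choose nxt dl hnx using hstep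
  let u : ℕ → {s : SC κ.ord.ToType // s ≤ s0} := fun k => Nat.rec ⟨s0, le_rfl⟩ (fun _ v => nxt v) k
  have hu : ∀ k, u (k + 1) = nxt (u k) := fun k => rfl
  let s : ℕ → SC κ.ord.ToType := fun k => (u k).1
  let δ : ℕ → κ.ord.ToType := fun k => dl (u k)
  have hs : ∀ k, s (k + 1) ≤ s k := fun k => (hnx (u k)).1
  have hlt1 : ∀ k, (s k).len < δ k := fun k => (hnx (u k)).2.1
  have hlt2 : ∀ k, δ k < (s (k + 1)).len := fun k => (hnx (u k)).2.2.1
  have hmem : ∀ k, s (k + 1) ∈ meets (D (δ k)) := fun k => (hnx (u k)).2.2.2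
  obtain ⟨b, hb⟩ := exists_bound hκ (N := ℕ) (by rw [mk_nat]; exact h0) (fun k => (s k).len)
  obtain ⟨α, hα, hmin⟩ := WellFounded.has_min (wellFounded_lt (α := κ.ord.ToType))
    {b | ∀ k, (s k).len < b} ⟨b, hb⟩
  have h2 : ∀ ξ < α, ∃ k, ξ < (s k).len := by
    intro ξ hξ
    by_contra hcon
    push Not at hcon
    refine hmin ξ (fun k => ?_) hξ
    exact ((hlt1 k).trans (hlt2 k)).trans_le (hcon (k + 1))
  obtain ⟨t, ht, hle, hx⟩ := exists_limit s hs (fun k => (hlt1 k).trans (hlt2 k)) α hα h2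
  have htD : ∀ k, t ∈ meets (D (δ k)) := fun k => down_meets _ _ (hmem k) _ (hle (k + 1))
  have hacc : t ∈ FAcc D α := by
    refine ⟨⟨_, hα 0⟩, fun ξ hξ => ?_⟩
    obtain ⟨k, hk⟩ := h2 ξ hξ
    exact mem_fex_of_mem (δ k) (down_fand (down_fground _) (down_meets _))
      ⟨⟨hk.trans (hlt1 k), (hlt2 k).trans (hα (k + 1))⟩, htD k⟩
  have htT : t ∈ FThread gen D := down_FThread gen D _ hD _ (hle 0)
  obtain ⟨t1, ht1, h3⟩ := mem_fimp.1 (htT.2 α) t le_rfl hacc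
  obtain ⟨t2, ht2, m, h4⟩ := mem_fex.1 h3 t1 le_rfl
  have hδα : δ 0 < α := (hlt2 0).trans (hα 1)
  have h5 : t2 ∈ meets (gen α m (δ 0)) :=
    FSameBelow.mp h4 hδα (down_meets _ _ (htD 0) _ (ht2.trans ht1))
  have hαt : α ≤ t.len := ht.ge
  have h6 := (meets_gen (hαt.trans (ht2.trans ht1).1)).1 h5
  rw [(ht2.trans ht1).2 α hαt] at h6
  obtain ⟨k, hk⟩ := (hx m (δ 0)).1 h6
  have hmono : StrictMono fun k => (s k).len :=
    strictMono_nat_of_lt_succ fun k => (hlt1 k).trans (hlt2 k)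
  rcases Nat.eq_zero_or_pos k with rfl | hpos
  · exact absurd (hlt1 0) (by rw [hk]; exact lt_irrefl _)
  · have h7 : (s 1).len ≤ (s k).len := hmono.monotone hpos
    exact absurd (hlt2 0) (by rw [hk]; exact not_lt.2 h7)

theorem square_gen (hκ : κ.IsRegular) (h0 : ℵ₀ < κ) (s : SC κ.ord.ToType) :
    s ∈ FSquare gen :=
  ⟨coherent_gen hκ s, fun D s' _ h => no_thread hκ h0 D s' h⟩

end Pool.Agent.W877.Full
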